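import Mathlib

set_option autoImplicit false

namespace Pool.Agent.H109R3.CF

/-- A substitution, extended to words. -/
def ext {S : Type} (τ : S → List S) (w : List S) : List S := w.flatMap τ

/-- The subshift generated by a substitution: all two-sided sequences all of whose finite subwords
are subwords of some iterated image of a letter. -/
def subshift {S : Type} (τ : S → List S) : Set (ℤ → S) :=
  {x | ∀ (i : ℤ) (n : ℕ), ∃ (m : ℕ) (a : S),
    List.ofFn (fun j : Fin n => x (i + j)) <:+: (ext τ)^[m] [a]}

/-- The language of a subshift: the finite words occurring in its points. -/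
def lang {S : Type} (X : Set (ℤ → S)) : Set (List S) :=
  {w | ∃ x ∈ X, ∃ i : ℤ, w = List.ofFn (fun j : Fin w.length => x (i + j))}

/-- A context-free grammar over the alphabet `Fin k` as a finite object: a list of rules
`(A, u)`, where the nonterminals are natural numbers and `u` is a word of nonterminals
(`Sum.inl`) and letters (`Sum.inr`). -/
abbrev Gram (k : ℕ) : Type := List (ℕ × List (ℕ ⊕ Fin k))

/-- The rules of the grammar described by a list of coded rules. -/
def Gram.rules {k : ℕ} (G : Gram k) : Finset (ContextFreeRule (Fin k) ℕ) :=
  (G.map (fun r => (⟨r.1, r.2.map (Sum.elim Symbol.nonterminal Symbol.terminal)⟩ :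
    ContextFreeRule (Fin k) ℕ))).toFinset

/-- The grammar described by a list of rules; the initial nonterminal is `0`. -/
def Gram.toCFG {k : ℕ} (G : Gram k) : ContextFreeGrammar (Fin k) where
  NT := ℕ
  initial := 0
  rules := G.rules

end Pool.Agent.H109R3.CF
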