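import Mathlib
import Pool.Agent.H502.PcReg

set_option autoImplicit false

namespace Pool.Agent.H109R3.CF

open Pool.Agent.H502.PcSrc

/-- A transition `(p, s, s0, r, r0, o)`: in state `p`, if the number is `s * t + s0`, it may be
replaced by `r * t + r0` while the state becomes `o` (`none`: stop). -/
abbrev Tr : Type := ℕ × ℕ × ℕ × ℕ × ℕ × Option ℕ

/-- The (nondeterministic) residue machine with transitions `T` can stop. -/
inductive HaltsT (T : List Tr) : Option ℕ → ℕ → Prop
  | stop (x : ℕ) : HaltsT T none x
  | step (p s s0 r r0 : ℕ) (o : Option ℕ) (h : (p, s, s0, r, r0, o) ∈ T) (t : ℕ) :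
      HaltsT T o (r * t + r0) → HaltsT T (some p) (s * t + s0)

/-- The primes used for the coding. -/
def pr : Bool × Bool → ℕ
  | (false, true) => 2
  | (false, false) => 3
  | (true, true) => 5
  | (true, false) => 7

theorem pr_prime (j : Bool × Bool) : (pr j).Prime := by
  obtain ⟨a, b⟩ := j
  cases a <;> cases b <;> simp only [pr] <;> norm_num

theorem pr_inj {i j : Bool × Bool} (h : pr i = pr j) : i = j := by
  obtain ⟨a, b⟩ := i
  obtain ⟨c, d⟩ := j
  cases a <;> cases b <;> cases c <;> cases d <;> simp_all [pr]

/-- The code of a register content. -/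
def code (c : Bool × Bool → ℤ) : ℕ := ∏ j, pr j ^ (c j).toNat

theorem code_pos (c : Bool × Bool → ℤ) : 0 < code c :=
  Finset.prod_pos fun j _ => pow_pos (pr_prime j).pos _

theorem dvd_code (c : Bool × Bool → ℤ) (j : Bool × Bool) : pr j ∣ code c ↔ 0 < c j := by
  unfold code
  rw [Prime.dvd_finsetProd_iff (pr_prime j).prime]
  constructor
  · rintro ⟨i, -, hi⟩
    have h1 := (pr_prime j).dvd_of_dvd_pow hi
    have h2 : pr j = pr i := (Nat.prime_dvd_prime_iff_eq (pr_prime j) (pr_prime i)).1 h1
    obtain rfl := pr_inj h2
    by_contra h3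
    have h4 : (c j).toNat = 0 := by omega
    rw [h4, pow_zero] at hi
    exact (pr_prime j).one_lt.ne' (Nat.dvd_one.1 hi)
  · intro h
    refine ⟨j, Finset.mem_univ _, dvd_pow_self _ ?_⟩
    omega

theorem code_add {c d : Bool × Bool → ℤ} (hc : ∀ j, 0 ≤ c j) (hd : ∀ j, 0 ≤ d j) :
    code (c + d) = code d * code c := by
  unfold code
  rw [← Finset.prod_mul_distrib]
  refine Finset.prod_congr rfl fun j _ => ?_
  rw [← pow_add]
  congr 1
  have := hc j
  have := hd j
  simp only [Pi.add_apply]
  omega

theorem code_add_neg {c d : Bool × Bool → ℤ} (i : Bool × Bool) (hc : ∀ j, 0 ≤ c j)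
    (hd : ∀ j, j ≠ i → 0 ≤ d j) (hi : d i = -1) (hci : 0 < c i) :
    code (c + d) * pr i = code d * code c := by
  unfold code
  rw [← Finset.prod_mul_distrib]
  rw [← Finset.mul_prod_erase _ _ (Finset.mem_univ i), ← Finset.mul_prod_erase _ _ (Finset.mem_univ i)]
  have h1 : ∀ j ∈ Finset.univ.erase i, pr j ^ ((c + d) j).toNat =
      pr j ^ (d j).toNat * pr j ^ (c j).toNat := by
    intro j hj
    rw [← pow_add]
    congr 1
    have := hc j
    have := hd j (Finset.ne_of_mem_erase hj)
    simp only [Pi.add_apply]
    omega
  rw [Finset.prod_congr rfl h1]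
  have h2 : pr i ^ ((c + d) i).toNat * pr i = pr i ^ (d i).toNat * pr i ^ (c i).toNat := by
    rw [← pow_succ, ← pow_add]
    congr 1
    simp only [Pi.add_apply]
    omega
  rw [← h2]
  ring

section

variable {P : Type} [Fintype P] (D : DM P (Bool × Bool)) (e : P → ℕ)

/-- The transitions belonging to a state of the register machine. -/
def trs (p : P) : List Tr :=
  (e p, pr (D.reg p), 0, code (D.vec p true), 0, (D.nxt p true).map e) ::
    (List.range (pr (D.reg p) - 1)).map (fun i =>
      (e p, pr (D.reg p), i + 1, pr (D.reg p) * code (D.vec p false),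
        (i + 1) * code (D.vec p false), (D.nxt p false).map e))

/-- All transitions. -/
noncomputable def allT : List Tr := (Finset.univ : Finset P).toList.flatMap (trs D e)

theorem mem_allT (x : Tr) : x ∈ allT D e ↔ ∃ p, x ∈ trs D e p := by
  simp [allT]

theorem halts_of (he : Function.Injective e) (o' : Option ℕ) (u : ℕ)
    (h : HaltsT (allT D e) o' u) : ∀ (o : Option P) (c : Bool × Bool → ℤ), (∀ j, 0 ≤ c j) →
      o' = o.map e → u = code c → D.Halts (o, c) := by
  induction h with
  | stop x =>
    intro o c _ ho _
    rcases o with _ | p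
    · exact ⟨0, rfl⟩
    · simp at ho
  | step p s s0 r r0 o1 hm t _ ih =>
    intro o c hc ho hu
    rcases o with _ | q
    · simp at ho
    have hpq : p = e q := by simpa using ho
    rw [← DM.halts_st]
    obtain ⟨q', hq'⟩ := (mem_allT D e _).1 hm
    unfold trs at hq'
    rw [List.mem_cons] at hq'
    rcases hq' with hq' | hq'
    · simp only [Prod.mk.injEq] at hq'
      obtain ⟨h1, h2, h3, h4, h5, h6⟩ := hq'
      have hqq : q = q' := he (by rw [← hpq, h1])
      subst hqq
      have hdvd : pr (D.reg q) ∣ code c := by
        rw [← hu, h2, h3]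
        exact ⟨t, by ring⟩
      have hpos := (dvd_code c _).1 hdvd
      have hb : D.br q c = true := by simp [DM.br, hpos]
      have hst : D.st (some q, c) = (D.nxt q true, c + D.vec q true) := by
        change (D.nxt q (D.br q c), c + D.vec q (D.br q c)) = _
        rw [hb]
      rw [hst]
      have hcode := code_add_neg (c := c) (d := D.vec q true) (D.reg q) hc
        (fun j hj => D.hp q j hj) (D.hp' q) hpos
      apply ih
      · intro j
        by_cases hj : j = D.reg q
        · subst hj
          have := D.hp' q
          simp only [Pi.add_apply]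
          omega
        · have := D.hp q j hj
          have := hc j
          simp only [Pi.add_apply]
          omega
      · exact h6
      · have h7 : code (c + D.vec q true) * pr (D.reg q) =
            (r * t + r0) * pr (D.reg q) := by
          rw [hcode, ← hu, h2, h3, h4, h5]
          ring
        exact (Nat.eq_of_mul_eq_mul_right (pr_prime _).pos h7).symm
    · rw [List.mem_map] at hq'
      obtain ⟨i, hi, hx⟩ := hq'
      simp only [Prod.mk.injEq] at hx
      obtain ⟨h1, h2, h3, h4, h5, h6⟩ := hx
      have hqq : q = q' := he (by rw [← hpq, h1])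
      subst hqq
      rw [List.mem_range] at hi
      have hnd : ¬ pr (D.reg q) ∣ code c := by
        rw [← hu, ← h2, ← h3]
        intro hd
        have h7 : pr (D.reg q) ∣ i + 1 := (Nat.dvd_add_right (Dvd.intro _ rfl)).1 hd
        have := Nat.le_of_dvd (Nat.succ_pos _) h7
        omega
      have hpos : ¬ 0 < c (D.reg q) := fun hh => hnd ((dvd_code c _).2 hh)
      have hb : D.br q c = false := by simp [DM.br, hpos]
      have hst : D.st (some q, c) = (D.nxt q false, c + D.vec q false) := by
        change (D.nxt q (D.br q c), c + D.vec q (D.br q c)) = _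
        rw [hb]
      rw [hst]
      apply ih
      · intro j
        have := D.hz q j
        have := hc j
        simp only [Pi.add_apply]
        omega
      · exact h6.symm
      · rw [code_add hc (D.hz q), ← hu, ← h2, ← h3, ← h4, ← h5]
        ring

theorem of_halts (k : ℕ) : ∀ (o : Option P) (c : Bool × Bool → ℤ), (∀ j, 0 ≤ c j) →
    (D.st^[k] (o, c)).1 = none → HaltsT (allT D e) (o.map e) (code c) := by
  induction k with
  | zero =>
    intro o c _ h
    simp only [Function.iterate_zero, id_eq] at h
    subst h
    exact HaltsT.stop _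
  | succ k ih =>
    intro o c hc h
    rcases o with _ | q
    · exact HaltsT.stop _
    rw [Function.iterate_succ_apply] at h
    have hnn := D.st_nonneg (some q, c) hc
    have ih' := ih _ _ hnn h
    by_cases hpos : 0 < c (D.reg q)
    · have hb : D.br q c = true := by simp [DM.br, hpos]
      have hst : D.st (some q, c) = (D.nxt q true, c + D.vec q true) := by
        change (D.nxt q (D.br q c), c + D.vec q (D.br q c)) = _
        rw [hb]
      rw [hst] at ih'
      obtain ⟨t, ht⟩ := (dvd_code c _).2 hpos
      have hcode := code_add_neg (c := c) (d := D.vec q true) (D.reg q) hc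
        (fun j hj => D.hp q j hj) (D.hp' q) hpos
      have h7 : code (c + D.vec q true) = code (D.vec q true) * t + 0 := by
        apply Nat.eq_of_mul_eq_mul_right (pr_prime (D.reg q)).pos
        rw [hcode, ht]
        ring
      rw [h7] at ih'
      have h8 : code c = pr (D.reg q) * t + 0 := ht
      rw [h8]
      refine HaltsT.step _ _ _ _ _ _ ?_ _ ih'
      rw [mem_allT, hb]
      exact ⟨q, List.mem_cons_self ..⟩
    · have hb : D.br q c = false := by simp [DM.br, hpos]
      have hst : D.st (some q, c) = (D.nxt q false, c + D.vec q false) := by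
        change (D.nxt q (D.br q c), c + D.vec q (D.br q c)) = _
        rw [hb]
      rw [hst] at ih'
      have hnd : ¬ pr (D.reg q) ∣ code c := fun hh => hpos ((dvd_code c _).1 hh)
      have h1 := Nat.div_add_mod (code c) (pr (D.reg q))
      have h2 : code c % pr (D.reg q) < pr (D.reg q) := Nat.mod_lt _ (pr_prime _).pos
      have h3 : code c % pr (D.reg q) ≠ 0 := fun hh => hnd (Nat.dvd_of_mod_eq_zero hh)
      obtain ⟨i, hi⟩ : ∃ i, code c % pr (D.reg q) = i + 1 := ⟨_, (Nat.succ_pred h3).symm⟩
      rw [hi] at h1 h2
      have ih2 : code (c + D.vec q false) =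
          pr (D.reg q) * code (D.vec q false) * (code c / pr (D.reg q)) +
            (i + 1) * code (D.vec q false) := by
        rw [code_add hc (D.hz q)]
        conv_lhs => rw [← h1]
        ring
      rw [ih2] at ih'
      rw [← h1]
      refine HaltsT.step _ _ _ _ _ _ ?_ _ ih'
      rw [mem_allT, hb]
      refine ⟨q, ?_⟩
      unfold trs
      rw [List.mem_cons, List.mem_map]
      right
      exact ⟨i, List.mem_range.2 (by omega), rfl⟩

end

/-- A fixed finite one-number residue machine with an undecidable halting problem. -/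
theorem exists_tr : ∃ (T : List Tr) (p0 : ℕ) (N : ℕ → ℕ), Computable N ∧
    ¬ ComputablePred (fun n => HaltsT T (some p0) (N n)) := by
  obtain ⟨Q, hQ, M, q0, N, _, hN, h⟩ := exists_sys
  have hf : Finite (RS M) := inferInstance
  let _ : Fintype (RS M) := Fintype.ofFinite _
  let D : DM (RS M) (Bool × Bool) := dm M q0 0
  let e : RS M → ℕ := fun p => (Fintype.equivFin (RS M) p : ℕ)
  have he : Function.Injective e := by
    intro x y hxy
    exact (Fintype.equivFin (RS M)).injective (Fin.ext hxy)
  refine ⟨allT D e, e (.d1 q0 (z0 M)), fun n => 2 ^ N n, ?_, ?_⟩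
  · have h1 : Primrec (fun n : ℕ => 2 ^ n) := by
      have : Primrec₂ (fun _ n : ℕ => 2 ^ n) := by
        refine (Primrec.nat_rec (f := fun _ : ℕ => 1) (g := fun _ (p : ℕ × ℕ) => 2 * p.2)
          (Primrec.const 1) ?_).of_eq ?_
        · exact (Primrec.nat_mul.comp (Primrec.const 2) (Primrec.snd.comp Primrec.snd))
        · intro a n
          induction n with
          | zero => rfl
          | succ n ih =>
            simp only at ih ⊢
            rw [ih, pow_succ]
            ring
      exact this.comp (Primrec.const 0) Primrec.id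
    exact h1.to_comp.comp hN
  · intro hc
    apply h
    refine hc.of_eq ?_
    intro n
    have h1 := dm_halts_iff M q0 0 q0 (ini (N n))
    rw [← h1]
    have hcode : code (v4 (ini (N n) true) (ini (N n) false) 0 0) = 2 ^ N n := by
      unfold code
      rw [Fintype.prod_prod_type]
      simp [v4, ini, pr]
    have hnn : ∀ j, 0 ≤ v4 (ini (N n) true : ℤ) (ini (N n) false : ℤ) 0 0 j := by
      rintro ⟨a, b⟩
      cases a <;> cases b <;> simp [v4]
    constructor
    · intro hh
      exact halts_of D e he _ _ hh (some (.d1 q0 (z0 M))) _ hnn rfl hcode.symm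
    · rintro ⟨k, hk⟩
      have := of_halts D e k _ _ hnn hk
      rw [hcode] at this
      exact this

end Pool.Agent.H109R3.CF
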