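import Mathlib
import Pool.Agent.H109R3.CF.Defs

set_option autoImplicit false

namespace Pool.Agent.H109R3.CF

/-- The substitution `0 ↦ 0`, `1 ↦ 01`, `2 ↦ 021` (the letters `0`, `1`, `2` play the roles of
`a`, `b`, `s`). -/
def tau : Fin 3 → List (Fin 3) := ![[0], [0, 1], [0, 2, 1]]

/-- The word `a^n b`. -/
def blk (n : ℕ) : List (Fin 3) := List.replicate n 0 ++ [1]

/-- The word `a^n b a^(n+1) b ... a^(n+l-1) b`. -/
def Qf : ℕ → ℕ → List (Fin 3)
  | _, 0 => []
  | n, l + 1 => blk n ++ Qf (n + 1) l

theorem Qf_add (n l l' : ℕ) : Qf n (l + l') = Qf n l ++ Qf (n + l) l' := by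
  induction l generalizing n with
  | zero => simp [Qf]
  | succ l ih =>
    rw [show l + 1 + l' = (l + l') + 1 by omega, Qf, Qf, ih, List.append_assoc]
    congr 3
    omega

theorem le_length_Qf (n l : ℕ) : l ≤ (Qf n l).length := by
  induction l generalizing n with
  | zero => simp
  | succ l ih =>
    have := ih (n + 1)
    simp only [Qf, blk, List.length_append, List.length_replicate, List.length_singleton]
    omega

theorem ext_append {S : Type} (τ : S → List S) (u v : List S) :
    ext τ (u ++ v) = ext τ u ++ ext τ v := by simp [ext]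

theorem ext_rep (n : ℕ) : ext tau (List.replicate n 0) = List.replicate n 0 := by
  induction n with
  | zero => rfl
  | succ n ih =>
    rw [List.replicate_succ]
    change tau 0 ++ ext tau _ = _
    rw [ih]
    rfl

theorem ext_blk (n : ℕ) : ext tau (blk n) = blk (n + 1) := by
  unfold blk
  rw [ext_append, ext_rep]
  have h : ext tau [1] = [0, 1] := by simp [ext, tau]
  rw [h, List.replicate_succ']
  simp

theorem ext_Qf (n l : ℕ) : ext tau (Qf n l) = Qf (n + 1) l := by
  induction l generalizing n with
  | zero => rfl
  | succ l ih => rw [Qf, Qf, ext_append, ext_blk, ih]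

theorem iter_zero (m : ℕ) : (ext tau)^[m] [0] = [0] := by
  induction m with
  | zero => rfl
  | succ m ih => rw [Function.iterate_succ_apply', ih]; rfl

theorem iter_one (m : ℕ) : (ext tau)^[m] [1] = List.replicate m 0 ++ [1] := by
  induction m with
  | zero => rfl
  | succ m ih =>
    rw [Function.iterate_succ_apply', ih]
    exact ext_blk m

/-- The central words. -/
def cw (m : ℕ) : List (Fin 3) := List.replicate m 0 ++ 2 :: Qf 0 m

theorem iter_two (m : ℕ) : (ext tau)^[m] [2] = cw m := by
  induction m with
  | zero => rfl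
  | succ m ih =>
    rw [Function.iterate_succ_apply', ih]
    unfold cw
    rw [ext_append, ext_rep]
    have h1 : ext tau (2 :: Qf 0 m) = [0, 2, 1] ++ ext tau (Qf 0 m) := rfl
    rw [h1, ext_Qf, Qf, List.replicate_succ']
    simp [blk]

theorem split_rep {n : ℕ} {u z Q : List (Fin 3)} (h : u ++ 1 :: z = List.replicate n 0 ++ Q) :
    ∃ u', Q = u' ++ 1 :: z := by
  induction n generalizing u with
  | zero => exact ⟨u, by simpa using h.symm⟩
  | succ n ih =>
    rw [List.replicate_succ, List.cons_append] at h
    rcases u with _ | ⟨x, u⟩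
    · simp at h
    · simp only [List.cons_append, List.cons.injEq] at h
      exact ih h.2

theorem split_Qf {n l : ℕ} {u z : List (Fin 3)} (h : u ++ 1 :: z = Qf n l) :
    ∃ n' l', z = Qf n' l' := by
  induction l generalizing u n with
  | zero => simp [Qf] at h
  | succ l ih =>
    rw [Qf, blk, List.append_assoc] at h
    obtain ⟨u', hu'⟩ := split_rep h
    rcases u' with _ | ⟨x, u'⟩
    · simp only [List.cons_append, List.nil_append, List.cons.injEq, true_and] at hu'
      exact ⟨_, _, hu'.symm⟩
    · simp only [List.cons_append, List.nil_append, List.cons.injEq] at hu'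
      exact ih hu'.2.symm

theorem split_iter {m : ℕ} {a : Fin 3} {u z : List (Fin 3)}
    (h : u ++ 1 :: z = (ext tau)^[m] [a]) : ∃ n' l', z = Qf n' l' := by
  match a with
  | 0 =>
    rw [iter_zero] at h
    rcases u with _ | ⟨x, u⟩ <;> simp at h
  | 1 =>
    rw [iter_one] at h
    obtain ⟨u', hu'⟩ := split_rep h
    rcases u' with _ | ⟨x, u'⟩
    · simp only [List.nil_append, List.cons.injEq, true_and] at hu'
      exact ⟨0, 0, by rw [← hu']; rfl⟩
    · simp at hu'
  | 2 =>
    rw [iter_two, cw] at h
    obtain ⟨u', hu'⟩ := split_rep h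
    rcases u' with _ | ⟨x, u'⟩
    · simp at hu'
    · simp only [List.cons_append, List.cons.injEq] at hu'
      exact split_Qf hu'.2.symm

/-- words of the language of the subshift containing the letter `1` at the beginning -/
theorem prefix_of_mem {y : List (Fin 3)} (h : 1 :: y ∈ lang (subshift tau)) :
    ∃ n l, y <+: Qf n l := by
  obtain ⟨x, hx, i, hw⟩ := h
  obtain ⟨m, a, hm⟩ := hx i (1 :: y).length
  rw [← hw] at hm
  obtain ⟨s, t, hst⟩ := hm
  have h1 : s ++ 1 :: (y ++ t) = (ext tau)^[m] [a] := by rw [← hst]; simp
  obtain ⟨n, l, hn⟩ := split_iter h1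
  exact ⟨n, l, ⟨t, hn⟩⟩

/-- A point of the subshift. -/
def pt (i : ℤ) : Fin 3 := (cw i.natAbs).getD (i + i.natAbs).toNat 0

theorem cw_succ (m : ℕ) : cw (m + 1) = 0 :: (cw m ++ blk m) := by
  unfold cw
  rw [Qf_add 0 m 1, List.replicate_succ]
  simp [Qf]

theorem le_length_cw (m : ℕ) : 2 * m < (cw m).length := by
  have := le_length_Qf 0 m
  simp only [cw, List.length_append, List.length_replicate, List.length_cons]
  omega

theorem getD_cw_add (m k j : ℕ) (hj : j < (cw m).length) :
    (cw (m + k)).getD (j + k) 0 = (cw m).getD j 0 := by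
  induction k with
  | zero => rfl
  | succ k ih =>
    rw [← Nat.add_assoc, cw_succ, ← Nat.add_assoc, List.getD_cons_succ, ← ih]
    have hl : ∀ k, j + k < (cw (m + k)).length := by
      intro k
      induction k with
      | zero => exact hj
      | succ k ih =>
        rw [show m + (k + 1) = m + k + 1 by omega, cw_succ]
        simp only [List.length_cons, List.length_append]
        omega
    rw [List.getD_append _ _ _ _ (hl k)]

theorem pt_eq (m : ℕ) (k : ℕ) (hk : k < (cw m).length) : pt ((k : ℤ) - m) = (cw m).getD k 0 := by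
  unfold pt
  set i : ℤ := (k : ℤ) - m with hi
  rcases le_total m i.natAbs with h | h
  · obtain ⟨d, hd⟩ := Nat.exists_eq_add_of_le h
    have h1 : (i + i.natAbs).toNat = k + d := by omega
    rw [h1, hd, getD_cw_add _ _ _ hk]
  · obtain ⟨d, hd⟩ := Nat.exists_eq_add_of_le h
    have h1 : k = (i + i.natAbs).toNat + d := by omega
    have h2 := le_length_cw i.natAbs
    conv_rhs => rw [h1, hd]
    rw [getD_cw_add _ _ _ (by omega)]

theorem mem_lang_of_infix {w : List (Fin 3)} {m : ℕ} (h : w <:+: cw m)  :
    w ∈ lang (subshift tau) := by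
  have key : ∀ (i : ℤ) (n : ℕ), List.ofFn (fun j : Fin n => pt (i + j)) <:+:
      cw (i.natAbs + n) := by
    intro i n
    set M := i.natAbs + n with hM
    have hlen := le_length_cw M
    have h1 : List.ofFn (fun j : Fin n => pt (i + j)) = ((cw M).drop (i + M).toNat).take n := by
      apply List.ext_getElem
      · simp only [List.length_ofFn, List.length_take, List.length_drop]
        omega
      · intro j hj1 hj2
        have hj : j < n := by simpa using hj1
        rw [List.getElem_ofFn, List.getElem_take, List.getElem_drop]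
        have h2 : i + ((⟨j, by simpa using hj1⟩ : Fin n) : ℕ) = (((i + M).toNat + j : ℕ) : ℤ) - M := by
          simp only
          omega
        rw [h2, pt_eq _ _ (by omega), List.getD_eq_getElem _ _ (by omega)]
    rw [h1]
    exact (List.take_prefix _ _).isInfix.trans (List.drop_suffix _ _).isInfix
  obtain ⟨s, t, hst⟩ := h
  refine ⟨pt, ?_, (s.length : ℤ) - m, ?_⟩
  · intro i n
    refine ⟨i.natAbs + n, 2, ?_⟩
    rw [iter_two]
    exact key i n
  · apply List.ext_getElem
    · simp
    · intro j hj1 hj2
      rw [List.getElem_ofFn]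
      have h2 : (s.length : ℤ) - m + ((⟨j, by simpa using hj1⟩ : Fin w.length) : ℕ) =
          ((s.length + j : ℕ) : ℤ) - m := by
        push_cast
        ring
      have hl : s.length + j < (cw m).length := by
        rw [← hst]
        simp only [List.length_append]
        omega
      rw [h2, pt_eq _ _ hl, List.getD_eq_getElem _ _ hl]
      have h3 : ∀ (L : List (Fin 3)) (hL : L = s ++ w ++ t) (h : s.length + j < L.length),
          L[s.length + j] = w[j] := by
        rintro L rfl h
        simp [hj1]
      exact (h3 _ hst.symm hl).symm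

theorem mem_of_prefix {y : List (Fin 3)} {n l : ℕ} (h : y <+: Qf (n + 1) l) :
    1 :: y ∈ lang (subshift tau) := by
  apply mem_lang_of_infix (m := n + 1 + l)
  obtain ⟨t, ht⟩ := h
  refine ⟨List.replicate (n + 1 + l) 0 ++ 2 :: (Qf 0 n ++ List.replicate n 0), t, ?_⟩
  unfold cw
  rw [Qf_add 0 (n + 1) l, Qf_add 0 n 1]
  simp only [Qf, blk, Nat.zero_add, List.append_assoc, List.cons_append, List.append_nil,
    List.nil_append]
  rw [← ht]

/-- peeling off one block -/
theorem peel {m n l : ℕ} {y : List (Fin 3)} (h : List.replicate m 0 ++ 1 :: y <+: Qf n l) :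
    ∃ l', l = l' + 1 ∧ m = n ∧ y <+: Qf (n + 1) l' := by
  rcases l with _ | l
  · simp [Qf] at h
  · refine ⟨l, rfl, ?_⟩
    rw [Qf, blk, List.append_assoc] at h
    generalize Qf (n + 1) l = R at h
    induction m generalizing n with
    | zero =>
      rcases n with _ | n
      · simp only [List.replicate_zero, List.nil_append, List.cons_append] at h
        exact ⟨rfl, (List.cons_prefix_cons.1 h).2⟩
      · rw [List.replicate_succ] at h
        simp only [List.replicate_zero, List.nil_append, List.cons_append] at h
        exact absurd (List.cons_prefix_cons.1 h).1 (by decide)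
    | succ m ih =>
      rcases n with _ | n
      · rw [List.replicate_succ] at h
        simp only [List.replicate_zero, List.nil_append, List.cons_append] at h
        exact absurd (List.cons_prefix_cons.1 h).1 (by decide)
      · rw [List.replicate_succ, List.replicate_succ] at h
        simp only [List.cons_append] at h
        have := ih (List.cons_prefix_cons.1 h).2
        exact ⟨by omega, this.2⟩

end Pool.Agent.H109R3.CF
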