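import Mathlib
import Pool.Agent.H109R3.CF.Subst
import Pool.Agent.H109R3.CF.Src

set_option autoImplicit false

namespace Pool.Agent.H109R3.CF

section general

variable {T N : Type}

/-- meaning of a sentential form, given languages for the nonterminals -/
def Sem (L : N → Language T) (α : List (Symbol T N)) : Language T :=
  (α.map (fun s => match s with
    | .terminal t => ({[t]} : Language T)
    | .nonterminal A => L A)).prod

theorem Sem_nil (L : N → Language T) : Sem L [] = 1 := rfl

theorem Sem_append (L : N → Language T) (α β : List (Symbol T N)) :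
    Sem L (α ++ β) = Sem L α * Sem L β := by simp [Sem]

theorem Sem_single (L : N → Language T) (A : N) : Sem L [.nonterminal A] = L A := by simp [Sem]

theorem mem_Sem_cons_terminal (L : N → Language T) (t : T) (α : List (Symbol T N)) (w : List T) :
    w ∈ Sem L (.terminal t :: α) ↔ ∃ u ∈ Sem L α, w = t :: u := by
  change w ∈ ({[t]} : Language T) * Sem L α ↔ _
  rw [Language.mem_mul]
  constructor
  · rintro ⟨a, ha, b, hb, rfl⟩
    have : a = [t] := ha
    subst this
    exact ⟨b, hb, rfl⟩
  · rintro ⟨u, hu, rfl⟩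
    exact ⟨[t], rfl, u, hu, rfl⟩

theorem mem_Sem_cons_nonterminal (L : N → Language T) (A : N) (α : List (Symbol T N))
    (w : List T) :
    w ∈ Sem L (.nonterminal A :: α) ↔ ∃ v ∈ L A, ∃ u ∈ Sem L α, w = v ++ u := by
  change w ∈ L A * Sem L α ↔ _
  rw [Language.mem_mul]
  constructor
  · rintro ⟨a, ha, b, hb, rfl⟩
    exact ⟨a, ha, b, hb, rfl⟩
  · rintro ⟨a, ha, b, hb, rfl⟩
    exact ⟨a, ha, b, hb, rfl⟩

theorem mem_Sem_nil (L : N → Language T) (w : List T) : w ∈ Sem L [] ↔ w = [] := by
  rw [Sem_nil, Language.mem_one]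

theorem mem_Sem_replicate (L : N → Language T) (t : T) (n : ℕ) (α : List (Symbol T N))
    (w : List T) :
    w ∈ Sem L (List.replicate n (.terminal t) ++ α) ↔
      ∃ u ∈ Sem L α, w = List.replicate n t ++ u := by
  induction n generalizing w with
  | zero => simp
  | succ n ih =>
    rw [List.replicate_succ, List.cons_append, mem_Sem_cons_terminal]
    constructor
    · rintro ⟨u, hu, rfl⟩
      obtain ⟨v, hv, rfl⟩ := (ih u).1 hu
      exact ⟨v, hv, rfl⟩
    · rintro ⟨u, hu, rfl⟩
      exact ⟨_, (ih _).2 ⟨u, hu, rfl⟩, rfl⟩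

theorem mem_Sem_self (L : N → Language T) (w : List T) : w ∈ Sem L (w.map .terminal) := by
  induction w with
  | nil => rw [List.map_nil, mem_Sem_nil]
  | cons t w ih =>
    rw [List.map_cons, mem_Sem_cons_terminal]
    exact ⟨w, ih, rfl⟩

end general

section cfg

variable {T N : Type} (A0 : N) (R : Finset (ContextFreeRule T N))

/-- the grammar with given nonterminals, initial nonterminal and rules -/
abbrev mk : ContextFreeGrammar T := ⟨N, A0, R⟩

/-- derivations -/
def Der (u v : List (Symbol T N)) : Prop := (mk A0 R).Derives u v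

theorem Sem_step (L : N → Language T) (p q α : List (Symbol T N)) (A : N)
    (h : ∀ w, w ∈ Sem L α → w ∈ L A) (w : List T) (hw : w ∈ Sem L (p ++ α ++ q)) :
    w ∈ Sem L (p ++ [.nonterminal A] ++ q) := by
  rw [Sem_append, Sem_append, Language.mem_mul] at hw ⊢
  obtain ⟨a, ha, b, hb, rfl⟩ := hw
  rw [Language.mem_mul] at ha
  obtain ⟨c, hc, d, hd, rfl⟩ := ha
  refine ⟨c ++ d, ?_, b, hb, rfl⟩
  rw [Language.mem_mul]
  refine ⟨c, hc, d, ?_, rfl⟩
  rw [Sem_single]
  exact h d hd

theorem Sem_le (L : N → Language T)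
    (h : ∀ r ∈ R, ∀ w, w ∈ Sem L r.output → w ∈ L r.input) {u v : List (Symbol T N)}
    (hd : Der A0 R u v) : ∀ w, w ∈ Sem L v → w ∈ Sem L u := by
  unfold Der at hd
  induction hd with
  | refl => exact fun w hw => hw
  | tail _ hp ih =>
    intro w hw
    apply ih
    obtain ⟨r, hr, hrw⟩ := hp
    obtain ⟨p, q, rfl, rfl⟩ := hrw.exists_parts
    exact Sem_step L p q r.output r.input (h r hr) w hw

theorem mem_of_generates (L : N → Language T)
    (h : ∀ r ∈ R, ∀ w, w ∈ Sem L r.output → w ∈ L r.input) {w : List T}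
    (hw : w ∈ (mk A0 R).language) : w ∈ L A0 := by
  have h1 := Sem_le A0 R L h (u := [.nonterminal A0]) (v := w.map .terminal) hw w
    (mem_Sem_self L w)
  rw [Sem_single] at h1
  exact h1

/-- the words derivable from a nonterminal -/
def Lg (A : N) : Language T := {w | Der A0 R [.nonterminal A] (w.map .terminal)}

theorem Der_left {u v : List (Symbol T N)} (h : Der A0 R u v) (p : List (Symbol T N)) :
    Der A0 R (p ++ u) (p ++ v) := ContextFreeGrammar.Derives.append_left (g := mk A0 R) h p

theorem Der_right {u v : List (Symbol T N)} (h : Der A0 R u v) (p : List (Symbol T N)) :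
    Der A0 R (u ++ p) (v ++ p) := ContextFreeGrammar.Derives.append_right (g := mk A0 R) h p

theorem Der_trans {u v w : List (Symbol T N)} (h : Der A0 R u v) (h' : Der A0 R v w) :
    Der A0 R u w := ContextFreeGrammar.Derives.trans (g := mk A0 R) h h'

theorem derives_of_mem {α : List (Symbol T N)} {w : List T} (h : w ∈ Sem (Lg A0 R) α) :
    Der A0 R α (w.map .terminal) := by
  induction α generalizing w with
  | nil =>
    rw [mem_Sem_nil] at h
    subst h
    exact Relation.ReflTransGen.refl
  | cons s α ih =>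
    rcases s with t | A
    · rw [mem_Sem_cons_terminal] at h
      obtain ⟨u, hu, rfl⟩ := h
      have := Der_left A0 R (ih hu) [.terminal t]
      simpa using this
    · rw [mem_Sem_cons_nonterminal] at h
      obtain ⟨v, hv, u, hu, rfl⟩ := h
      have h1 := Der_left A0 R (ih hu) [.nonterminal A]
      have h2 : Der A0 R ([.nonterminal A] ++ u.map .terminal)
          (v.map .terminal ++ u.map .terminal) := Der_right A0 R hv _
      rw [List.map_append]
      exact Der_trans A0 R h1 h2

theorem mem_Lg {r : ContextFreeRule T N} (hr : r ∈ R) {w : List T}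
    (h : w ∈ Sem (Lg A0 R) r.output) : w ∈ Lg A0 R r.input := by
  have h1 : (mk A0 R).Produces [.nonterminal r.input] r.output :=
    ⟨r, hr, ContextFreeRule.Rewrites.input_output⟩
  exact h1.trans_derives (derives_of_mem A0 R h)

end cfg

/-- nonterminal for a state -/
def nN (p : ℕ) : ℕ := 2 * p + 2

/-- nonterminal for a bracket -/
def nK (s s0 r r0 : ℕ) : ℕ := 2 * Encodable.encode (s, s0, r, r0) + 3

/-- rules for the bracket `a^v b a^(v+1)` -/
def ruleC : Gram 3 := [(1, [.inr 0, .inl 1, .inr 0]), (1, [.inr 1, .inr 0])]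

/-- rules for a transition -/
def rulesT : Tr → Gram 3
  | (p, s, s0, r, r0, o) =>
    [(nK s s0 r r0, List.replicate s (.inr 0) ++ .inl (nK s s0 r r0) :: List.replicate r (.inr 0)),
     (nK s s0 r r0, List.replicate s0 (.inr 0) ++ .inr 1 :: List.replicate r0 (.inr 0)),
     (nN p, .inl 1 :: .inl (nK s s0 r r0) :: (o.toList.map (fun q => .inl (nN q))))]

/-- the fixed rules -/
def base (T : List Tr) : Gram 3 := ruleC ++ T.flatMap rulesT

/-- the grammar -/
def gram (T : List Tr) (p0 x : ℕ) : Gram 3 :=
  (0, .inr 1 :: (List.replicate x (.inr 0) ++ [.inl (nN p0)])) :: base T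

/-- the words belonging to the halting runs -/
inductive W (T : List Tr) : Option ℕ → List (Fin 3) → Prop
  | nil : W T none []
  | step (p s s0 r r0 : ℕ) (o : Option ℕ) (h : (p, s, s0, r, r0, o) ∈ T) (v t : ℕ)
      (w : List (Fin 3)) : W T o w →
      W T (some p) (List.replicate v 0 ++ 1 :: (List.replicate (v + 1) 0 ++
        (List.replicate (s * t + s0) 0 ++ 1 :: (List.replicate (r * t + r0) 0 ++ w))))

theorem halts_of_W {T : List Tr} {o : Option ℕ} {w : List (Fin 3)} (h : W T o w) :
    ∀ (x n l : ℕ), List.replicate x 0 ++ w <+: Qf n l → HaltsT T o x := by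
  induction h with
  | nil => intro x n l _; exact HaltsT.stop x
  | step p s s0 r r0 o h v t w _ ih =>
    intro x n l hp
    rw [← List.append_assoc, ← List.replicate_add] at hp
    obtain ⟨l', rfl, hn, hp⟩ := peel hp
    rw [← List.append_assoc, ← List.replicate_add] at hp
    obtain ⟨l'', rfl, hn', hp⟩ := peel hp
    have := ih _ _ _ hp
    have hx : x = s * t + s0 := by omega
    rw [hx]
    exact HaltsT.step p s s0 r r0 o h t this

theorem W_of_halts {T : List Tr} {o : Option ℕ} {x : ℕ} (h : HaltsT T o x) :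
    ∃ N, ∀ n, N ≤ n → ∃ w l, W T o w ∧ List.replicate x 0 ++ w <+: Qf n l := by
  induction h with
  | stop x =>
    refine ⟨x, fun n hn => ⟨[], 1, W.nil, ?_⟩⟩
    obtain ⟨d, rfl⟩ := Nat.exists_eq_add_of_le hn
    refine ⟨List.replicate d 0 ++ [1], ?_⟩
    simp only [Qf, blk]
    rw [List.replicate_add]
    simp only [List.append_assoc, List.append_nil]
  | step p s s0 r r0 o h t _ ih =>
    obtain ⟨N, hN⟩ := ih
    refine ⟨max N (s * t + s0), fun n hn => ?_⟩
    obtain ⟨w, l, hw, hp⟩ := hN (n + 2) (by omega)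
    obtain ⟨v, hv⟩ : ∃ v, n = s * t + s0 + v := ⟨n - (s * t + s0), by omega⟩
    refine ⟨_, l + 2, W.step p s s0 r r0 o h v t w hw, ?_⟩
    rw [← List.append_assoc, ← List.replicate_add, ← List.append_assoc (List.replicate (v + 1) 0),
      ← List.replicate_add]
    have h1 : v + 1 + (s * t + s0) = n + 1 := by omega
    rw [h1, ← hv]
    rw [show l + 2 = (l + 1) + 1 by omega, Qf, Qf, blk, blk]
    obtain ⟨z, hz⟩ := hp
    refine ⟨z, ?_⟩
    rw [← hz]
    simp

/-- languages of the nonterminals -/
def LL (T : List Tr) (p0 x : ℕ) (A : ℕ) : Language (Fin 3) :=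
  {w | (A = 0 ∧ ∃ u, W T (some p0) u ∧ w = 1 :: (List.replicate x 0 ++ u)) ∨
    (A = 1 ∧ ∃ v, w = List.replicate v 0 ++ 1 :: List.replicate (v + 1) 0) ∨
    (∃ p, A = nN p ∧ W T (some p) w) ∨
    (∃ s s0 r r0 t, A = nK s s0 r r0 ∧
      w = List.replicate (s * t + s0) 0 ++ 1 :: List.replicate (r * t + r0) 0)}

theorem LL_zero {T : List Tr} {p0 x : ℕ} {w : List (Fin 3)} :
    w ∈ LL T p0 x 0 ↔ ∃ u, W T (some p0) u ∧ w = 1 :: (List.replicate x 0 ++ u) := by
  constructor
  · rintro (h | h | h | h)
    · exact h.2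
    · exact absurd h.1 (by decide)
    · obtain ⟨p, hp, -⟩ := h
      simp [nN] at hp
    · obtain ⟨_, _, _, _, _, h, _⟩ := h
      simp [nK] at h
  · intro h
    exact Or.inl ⟨rfl, h⟩

theorem LL_one {T : List Tr} {p0 x : ℕ} {w : List (Fin 3)} :
    w ∈ LL T p0 x 1 ↔ ∃ v, w = List.replicate v 0 ++ 1 :: List.replicate (v + 1) 0 := by
  constructor
  · rintro (h | h | h | h)
    · exact absurd h.1 (by decide)
    · exact h.2
    · obtain ⟨p, hp, -⟩ := h
      simp [nN] at hp
    · obtain ⟨_, _, _, _, _, h, _⟩ := h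
      simp [nK] at h
  · intro h
    exact Or.inr (Or.inl ⟨rfl, h⟩)

theorem LL_N {T : List Tr} {p0 x p : ℕ} {w : List (Fin 3)} :
    w ∈ LL T p0 x (nN p) ↔ W T (some p) w := by
  constructor
  · rintro (h | h | h | h)
    · exact absurd h.1 (by simp [nN])
    · exact absurd h.1 (by simp [nN])
    · obtain ⟨p', hp, h⟩ := h
      simp only [nN] at hp
      obtain rfl : p = p' := by omega
      exact h
    · obtain ⟨_, _, _, _, _, h, _⟩ := h
      simp only [nN, nK] at h
      omega
  · intro h
    exact Or.inr (Or.inr (Or.inl ⟨p, rfl, h⟩))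

theorem LL_K {T : List Tr} {p0 x s s0 r r0 : ℕ} {w : List (Fin 3)} :
    w ∈ LL T p0 x (nK s s0 r r0) ↔
      ∃ t, w = List.replicate (s * t + s0) 0 ++ 1 :: List.replicate (r * t + r0) 0 := by
  constructor
  · rintro (h | h | h | h)
    · exact absurd h.1 (by simp [nK])
    · exact absurd h.1 (by simp [nK])
    · obtain ⟨p', hp, h⟩ := h
      simp only [nN, nK] at hp
      omega
    · obtain ⟨a, b, c, d, t, h, hw⟩ := h
      simp only [nK] at h
      have h1 : Encodable.encode (s, s0, r, r0) = Encodable.encode (a, b, c, d) := by omega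
      have h2 := Encodable.encode_injective h1
      simp only [Prod.mk.injEq] at h2
      obtain ⟨rfl, rfl, rfl, rfl⟩ := h2
      exact ⟨t, hw⟩
  · rintro ⟨t, h⟩
    exact Or.inr (Or.inr (Or.inr ⟨s, s0, r, r0, t, rfl, h⟩))

/-- the rule given by a coded rule -/
def toR (r : ℕ × List (ℕ ⊕ Fin 3)) : ContextFreeRule (Fin 3) ℕ :=
  ⟨r.1, r.2.map (Sum.elim Symbol.nonterminal Symbol.terminal)⟩

theorem mem_rules (G : Gram 3) (r : ContextFreeRule (Fin 3) ℕ) :
    r ∈ G.rules ↔ ∃ x ∈ G, toR x = r := by
  simp only [Gram.rules, List.mem_toFinset, List.mem_map]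
  rfl

theorem sound {T : List Tr} {p0 x : ℕ} {w : List (Fin 3)}
    (h : w ∈ (gram T p0 x).toCFG.language) :
    ∃ u, W T (some p0) u ∧ w = 1 :: (List.replicate x 0 ++ u) := by
  rw [← LL_zero]
  refine mem_of_generates (0 : ℕ) (gram T p0 x).rules (LL T p0 x) ?_ h
  intro ρ hρ
  rw [mem_rules] at hρ
  obtain ⟨y, hy, rfl⟩ := hρ
  intro w hw
  unfold gram at hy
  rw [List.mem_cons] at hy
  rcases hy with rfl | hy
  · change w ∈ LL T p0 x 0
    rw [LL_zero]
    simp only [toR, List.map_cons, List.map_append, List.map_replicate, Sum.elim_inr,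
      Sum.elim_inl, List.map_nil] at hw
    rw [mem_Sem_cons_terminal] at hw
    obtain ⟨u, hu, rfl⟩ := hw
    rw [mem_Sem_replicate] at hu
    obtain ⟨u', hu', rfl⟩ := hu
    rw [Sem_single, LL_N] at hu'
    exact ⟨u', hu', rfl⟩
  unfold base at hy
  rw [List.mem_append] at hy
  rcases hy with hy | hy
  · unfold ruleC at hy
    simp only [List.mem_cons, List.not_mem_nil, or_false] at hy
    rcases hy with rfl | rfl
    · change w ∈ LL T p0 x 1
      rw [LL_one]
      simp only [toR, List.map_cons, Sum.elim_inr, Sum.elim_inl, List.map_nil] at hw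
      rw [mem_Sem_cons_terminal] at hw
      obtain ⟨u, hu, rfl⟩ := hw
      rw [mem_Sem_cons_nonterminal] at hu
      obtain ⟨v, hv, u', hu', rfl⟩ := hu
      rw [mem_Sem_cons_terminal] at hu'
      obtain ⟨z, hz, rfl⟩ := hu'
      rw [mem_Sem_nil] at hz
      subst hz
      rw [LL_one] at hv
      obtain ⟨k, rfl⟩ := hv
      refine ⟨k + 1, ?_⟩
      rw [List.replicate_succ (n := k), List.replicate_succ' (n := k + 1),
        List.replicate_succ (n := k)]
      simp only [List.cons_append, List.append_assoc]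
    · change w ∈ LL T p0 x 1
      rw [LL_one]
      simp only [toR, List.map_cons, Sum.elim_inr, List.map_nil] at hw
      rw [mem_Sem_cons_terminal] at hw
      obtain ⟨u, hu, rfl⟩ := hw
      rw [mem_Sem_cons_terminal] at hu
      obtain ⟨z, hz, rfl⟩ := hu
      rw [mem_Sem_nil] at hz
      subst hz
      exact ⟨0, rfl⟩
  · rw [List.mem_flatMap] at hy
    obtain ⟨⟨p, s, s0, r, r0, o⟩, hT, hy⟩ := hy
    unfold rulesT at hy
    simp only [List.mem_cons, List.not_mem_nil, or_false] at hy
    rcases hy with rfl | rfl | rfl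
    · change w ∈ LL T p0 x (nK s s0 r r0)
      rw [LL_K]
      simp only [toR, List.map_cons, List.map_append, List.map_replicate, Sum.elim_inr,
        Sum.elim_inl] at hw
      rw [mem_Sem_replicate] at hw
      obtain ⟨u, hu, rfl⟩ := hw
      rw [mem_Sem_cons_nonterminal] at hu
      obtain ⟨v, hv, u', hu', rfl⟩ := hu
      rw [← List.append_nil (List.replicate r _), mem_Sem_replicate] at hu'
      obtain ⟨z, hz, rfl⟩ := hu'
      rw [mem_Sem_nil] at hz
      subst hz
      rw [LL_K] at hv
      obtain ⟨t, rfl⟩ := hv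
      refine ⟨t + 1, ?_⟩
      have h1 : s * (t + 1) + s0 = s + (s * t + s0) := by ring
      have h2 : r * (t + 1) + r0 = (r * t + r0) + r := by ring
      rw [h1, h2, List.replicate_add s, List.replicate_add (r * t + r0)]
      simp only [List.cons_append, List.append_assoc, List.append_nil]
    · change w ∈ LL T p0 x (nK s s0 r r0)
      rw [LL_K]
      simp only [toR, List.map_cons, List.map_append, List.map_replicate, Sum.elim_inr] at hw
      rw [mem_Sem_replicate] at hw
      obtain ⟨u, hu, rfl⟩ := hw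
      rw [mem_Sem_cons_terminal] at hu
      obtain ⟨v, hv, rfl⟩ := hu
      rw [← List.append_nil (List.replicate r0 _), mem_Sem_replicate] at hv
      obtain ⟨z, hz, rfl⟩ := hv
      rw [mem_Sem_nil] at hz
      subst hz
      exact ⟨0, by simp⟩
    · change w ∈ LL T p0 x (nN p)
      rw [LL_N]
      simp only [toR, List.map_cons, Sum.elim_inl] at hw
      rw [mem_Sem_cons_nonterminal] at hw
      obtain ⟨v, hv, u, hu, rfl⟩ := hw
      rw [mem_Sem_cons_nonterminal] at hu
      obtain ⟨v', hv', u', hu', rfl⟩ := hu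
      rw [LL_one] at hv
      rw [LL_K] at hv'
      obtain ⟨k, rfl⟩ := hv
      obtain ⟨t, rfl⟩ := hv'
      have hW : W T o u' := by
        rcases o with _ | q
        · simp only [Option.toList_none, List.map_nil] at hu'
          rw [mem_Sem_nil] at hu'
          subst hu'
          exact W.nil
        · simp only [Option.toList_some, List.map_cons, List.map_nil, Sum.elim_inl] at hu'
          rw [Sem_single, LL_N] at hu'
          exact hu'
      have := W.step p s s0 r r0 o hT k t u' hW
      simpa using this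

theorem complete_aux {T : List Tr} {p0 x : ℕ} {o : Option ℕ} {w : List (Fin 3)} (h : W T o w) :
    w ∈ Sem (Lg (0 : ℕ) (gram T p0 x).rules) (o.toList.map (fun q => Symbol.nonterminal (nN q))) := by
  have hC : ∀ v, (List.replicate v 0 ++ 1 :: List.replicate (v + 1) 0 : List (Fin 3)) ∈
      Lg (0 : ℕ) (gram T p0 x).rules (1 : ℕ) := by
    intro v
    induction v with
    | zero =>
      have hr : toR (1, [.inr 1, .inr 0]) ∈ (gram T p0 x).rules := by
        rw [mem_rules]
        exact ⟨_, by simp [gram, base, ruleC], rfl⟩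
      apply mem_Lg _ _ hr
      simp only [toR, List.map_cons, Sum.elim_inr, List.map_nil]
      rw [mem_Sem_cons_terminal]
      refine ⟨[0], ?_, rfl⟩
      rw [mem_Sem_cons_terminal]
      exact ⟨[], (mem_Sem_nil _ _).2 rfl, rfl⟩
    | succ v ih =>
      have hr : toR (1, [.inr 0, .inl 1, .inr 0]) ∈ (gram T p0 x).rules := by
        rw [mem_rules]
        exact ⟨_, by simp [gram, base, ruleC], rfl⟩
      apply mem_Lg _ _ hr
      simp only [toR, List.map_cons, Sum.elim_inr, Sum.elim_inl, List.map_nil]
      rw [mem_Sem_cons_terminal]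
      refine ⟨(List.replicate v 0 ++ 1 :: List.replicate (v + 1) 0) ++ [0], ?_, ?_⟩
      · rw [mem_Sem_cons_nonterminal]
        refine ⟨_, ih, [0], ?_, rfl⟩
        rw [mem_Sem_cons_terminal]
        exact ⟨[], (mem_Sem_nil _ _).2 rfl, rfl⟩
      · rw [List.replicate_succ' (n := v + 1), List.replicate_succ (n := v)]
        simp only [List.cons_append, List.append_assoc]
  have hK : ∀ p s s0 r r0 o, (p, s, s0, r, r0, o) ∈ T → ∀ t,
      (List.replicate (s * t + s0) 0 ++ 1 :: List.replicate (r * t + r0) 0 : List (Fin 3)) ∈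
      Lg (0 : ℕ) (gram T p0 x).rules (nK s s0 r r0) := by
    intro p s s0 r r0 o hT t
    induction t with
    | zero =>
      have hr : toR (nK s s0 r r0, List.replicate s0 (.inr 0) ++ .inr 1 ::
          List.replicate r0 (.inr 0)) ∈ (gram T p0 x).rules := by
        rw [mem_rules]
        refine ⟨_, ?_, rfl⟩
        simp only [gram, base, List.mem_cons, List.mem_append, List.mem_flatMap]
        right; right
        exact ⟨_, hT, by simp [rulesT]⟩
      apply mem_Lg _ _ hr
      simp only [toR, List.map_cons, List.map_append, List.map_replicate, Sum.elim_inr]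
      rw [mem_Sem_replicate]
      refine ⟨1 :: List.replicate r0 0, ?_, by simp⟩
      rw [mem_Sem_cons_terminal]
      refine ⟨_, ?_, rfl⟩
      rw [← List.append_nil (List.replicate r0 (Symbol.terminal (0 : Fin 3))), mem_Sem_replicate]
      exact ⟨[], (mem_Sem_nil _ _).2 rfl, by simp⟩
    | succ t ih =>
      have hr : toR (nK s s0 r r0, List.replicate s (.inr 0) ++ .inl (nK s s0 r r0) ::
          List.replicate r (.inr 0)) ∈ (gram T p0 x).rules := by
        rw [mem_rules]
        refine ⟨_, ?_, rfl⟩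
        simp only [gram, base, List.mem_cons, List.mem_append, List.mem_flatMap]
        right; right
        exact ⟨_, hT, by simp [rulesT]⟩
      apply mem_Lg _ _ hr
      simp only [toR, List.map_cons, List.map_append, List.map_replicate, Sum.elim_inr,
        Sum.elim_inl]
      rw [mem_Sem_replicate]
      refine ⟨(List.replicate (s * t + s0) 0 ++ 1 :: List.replicate (r * t + r0) 0) ++
        List.replicate r 0, ?_, ?_⟩
      · rw [mem_Sem_cons_nonterminal]
        refine ⟨_, ih, List.replicate r 0, ?_, rfl⟩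
        rw [← List.append_nil (List.replicate r (Symbol.terminal (0 : Fin 3))), mem_Sem_replicate]
        exact ⟨[], (mem_Sem_nil _ _).2 rfl, by simp⟩
      · have h1 : s * (t + 1) + s0 = s + (s * t + s0) := by ring
        have h2 : r * (t + 1) + r0 = (r * t + r0) + r := by ring
        rw [h1, h2, List.replicate_add s, List.replicate_add (r * t + r0)]
        simp only [List.cons_append, List.append_assoc]
  induction h with
  | nil => exact (mem_Sem_nil _ _).2 rfl
  | step p s s0 r r0 o hT v t w _ ih =>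
    simp only [Option.toList_some, List.map_cons, List.map_nil]
    rw [Sem_single]
    have hr : toR (nN p, .inl 1 :: .inl (nK s s0 r r0) ::
        (o.toList.map (fun q => .inl (nN q)))) ∈ (gram T p0 x).rules := by
      rw [mem_rules]
      refine ⟨_, ?_, rfl⟩
      simp only [gram, base, List.mem_cons, List.mem_append, List.mem_flatMap]
      right; right
      exact ⟨_, hT, by simp [rulesT]⟩
    apply mem_Lg _ _ hr
    simp only [toR, List.map_cons, Sum.elim_inl]
    rw [mem_Sem_cons_nonterminal]
    refine ⟨_, hC v, (List.replicate (s * t + s0) 0 ++ 1 :: List.replicate (r * t + r0) 0) ++ w,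
      ?_, by simp⟩
    rw [mem_Sem_cons_nonterminal]
    refine ⟨_, hK p s s0 r r0 o hT t, w, ?_, rfl⟩
    rw [List.map_map]
    exact ih

theorem complete {T : List Tr} {p0 x : ℕ} {u : List (Fin 3)} (h : W T (some p0) u) :
    1 :: (List.replicate x 0 ++ u) ∈ (gram T p0 x).toCFG.language := by
  have hr : toR (0, .inr 1 :: (List.replicate x (.inr 0) ++ [.inl (nN p0)])) ∈
      (gram T p0 x).rules := by
    rw [mem_rules]
    exact ⟨_, by simp [gram], rfl⟩
  change _ ∈ Lg (0 : ℕ) (gram T p0 x).rules (0 : ℕ)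
  apply mem_Lg _ _ hr
  simp only [toR, List.map_cons, List.map_append, List.map_replicate, Sum.elim_inr,
    Sum.elim_inl, List.map_nil]
  rw [mem_Sem_cons_terminal]
  refine ⟨_, ?_, rfl⟩
  rw [mem_Sem_replicate]
  exact ⟨u, complete_aux h, rfl⟩

/-- the reduction -/
theorem reduction (T : List Tr) (p0 x : ℕ) :
    (∃ w ∈ (gram T p0 x).toCFG.language, w ∈ lang (subshift tau)) ↔ HaltsT T (some p0) x := by
  constructor
  · rintro ⟨w, hw, hl⟩
    obtain ⟨u, hu, rfl⟩ := sound hw
    obtain ⟨n, l, hp⟩ := prefix_of_mem hl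
    exact halts_of_W hu _ _ _ hp
  · intro h
    obtain ⟨N, hN⟩ := W_of_halts h
    obtain ⟨w, l, hw, hp⟩ := hN (N + 1) (by omega)
    exact ⟨_, complete hw, mem_of_prefix hp⟩

/-- the map producing the grammars is computable -/
theorem gram_computable (T : List Tr) (p0 : ℕ) (N : ℕ → ℕ) (hN : Computable N) :
    Computable (fun n => gram T p0 (N n)) := by
  have h1 : Primrec (fun x : ℕ => gram T p0 x) := by
    unfold gram
    have h2 : Primrec (fun x : ℕ => (List.replicate x (.inr 0) : List (ℕ ⊕ Fin 3))) := by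
      have h3 : Primrec (fun x : ℕ => (List.range x).map
          (fun _ => (.inr 0 : ℕ ⊕ Fin 3))) :=
        Primrec.list_map Primrec.list_range (Primrec.const _)
      refine h3.of_eq fun x => ?_
      simp
    have h4 : Primrec (fun x : ℕ =>
        (List.replicate x (.inr 0) ++ [.inl (nN p0)] : List (ℕ ⊕ Fin 3))) :=
      Primrec.list_append.comp h2 (Primrec.const _)
    have h5 : Primrec (fun x : ℕ =>
        (.inr 1 :: (List.replicate x (.inr 0) ++ [.inl (nN p0)]) : List (ℕ ⊕ Fin 3))) :=
      Primrec.list_cons.comp (Primrec.const _) h4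
    have h6 : Primrec (fun x : ℕ =>
        ((0, .inr 1 :: (List.replicate x (.inr 0) ++ [.inl (nN p0)])) :
          ℕ × List (ℕ ⊕ Fin 3))) :=
      Primrec.pair (Primrec.const 0) h5
    exact Primrec.list_cons.comp h6 (Primrec.const _)
  exact h1.to_comp.comp hN

/-- the main statement -/
theorem main : ¬ ComputablePred (fun G : Gram 3 =>
    ∃ w ∈ G.toCFG.language, w ∈ lang (subshift tau)) := by
  obtain ⟨T, p0, N, hN, h⟩ := exists_tr
  intro hc
  apply h
  have h1 : ManyOneReducible (fun n => HaltsT T (some p0) (N n)) (fun G : Gram 3 =>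
      ∃ w ∈ G.toCFG.language, w ∈ lang (subshift tau)) := by
    refine ⟨fun n => gram T p0 (N n), gram_computable T p0 N hN, fun n => ?_⟩
    exact (reduction T p0 (N n)).symm
  exact ComputablePred.computable_of_manyOneReducible h1 hc

end Pool.Agent.H109R3.CF
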